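import Pool.Agent.Run7.h984.TS.GcE

/-!
# The points over a fixed `t`
-/

set_option autoImplicit false
set_option linter.all false

open Polynomial

namespace Run7.h984.TS

theorem frob_eq {F L : Type*} [Field F] [Fintype F] [Field L] [Algebra F L] (H : F[X]) (ρ : L) :
    (H.map (algebraMap F L)).eval (ρ ^ Fintype.card F) = ((H.map (algebraMap F L)).eval ρ) ^ Fintype.card F := by
  have h1 : ∀ x : L, FiniteField.frobeniusAlgHom F L x = x ^ Fintype.card F := fun x => by
    rw [FiniteField.coe_frobeniusAlgHom]
  rw [eval_map, eval_map, ← aeval_def, ← aeval_def, ← h1, ← h1, aeval_algHom_apply]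

theorem mem_range_of_frob {F L : Type*} [Field F] [Fintype F] [Field L] [Algebra F L] {x : L}
    (hx : x ^ Fintype.card F = x) : ∃ a : F, algebraMap F L a = x := by
  classical
  have hq : 1 < Fintype.card F := Fintype.one_lt_card
  have h1 : (X ^ Fintype.card F - X : L[X]) ≠ 0 := FiniteField.X_pow_card_sub_X_ne_zero L hq
  have h2 : (Finset.univ : Finset F).image (algebraMap F L) ⊆ (X ^ Fintype.card F - X : L[X]).roots.toFinset := by
    intro y hy
    obtain ⟨a, -, rfl⟩ := Finset.mem_image.1 hy
    rw [Multiset.mem_toFinset, mem_roots h1, IsRoot.def, eval_sub, eval_pow, eval_X, ← map_pow,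
      FiniteField.pow_card, sub_self]
  have h3 : (X ^ Fintype.card F - X : L[X]).roots.toFinset.card ≤
      ((Finset.univ : Finset F).image (algebraMap F L)).card := by
    rw [Finset.card_image_of_injective _ (algebraMap F L).injective, Finset.card_univ]
    refine (Multiset.toFinset_card_le _).trans ((card_roots' _).trans ?_)
    rw [FiniteField.X_pow_card_sub_X_natDegree_eq L hq]
  have h4 := Finset.eq_of_subset_of_card_le h2 h3
  have h5 : x ∈ (X ^ Fintype.card F - X : L[X]).roots.toFinset := by
    rw [Multiset.mem_toFinset, mem_roots h1, IsRoot.def, eval_sub, eval_pow, eval_X, hx, sub_self]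
  rw [← h4] at h5
  obtain ⟨a, -, ha⟩ := Finset.mem_image.1 h5
  exact ⟨a, ha⟩

open scoped Classical in
/-- The points on the double cover are the zeros of `Gc`. -/
theorem fiber {F : Type} [Field F] [Fintype F] {H g : F[X]} (hH : H.Monic) (hn : 0 < H.natDegree)
    (hg : g.natDegree ≤ 2 * H.natDegree) {c : F} (hs : (Gc H g c).Separable) :
    (Finset.univ.filter fun z : F × F => H.eval z.1 = 0 ∧ z.2 ^ 2 = g.eval z.1).card =
      (Finset.univ.filter fun z : F => (Gc H g c).eval z = 0).card := by
  set φ : F →+* AlgebraicClosure F := algebraMap F (AlgebraicClosure F) with hφ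
  have hd : (H.map φ).natDegree = H.natDegree := natDegree_map φ
  have hg' : (g.map φ).natDegree ≤ 2 * (H.map φ).natDegree := by
    rw [hd]; exact natDegree_map_le.trans hg
  have hs' : (Gc (H.map φ) (g.map φ) (φ c)).Separable := by
    rw [← Gc_map φ c hd]; exact hs.map
  have hn' : 0 < (H.map φ).natDegree := by rw [hd]; exact hn
  refine Finset.card_bij (fun z _ => c * z.1 + z.2) ?_ ?_ ?_
  · rintro ⟨y, s⟩ hz
    simp only [Finset.mem_filter, Finset.mem_univ, true_and] at hz ⊢
    have h1 := Gc_eval₂ (RingHom.id F) (g := g) (z := c * y + s) c hn hg (y := y)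
      (by rw [← eval₂_id] at hz; exact hz.1)
      (by
        rw [RingHom.id_apply, add_sub_cancel_left]
        exact hz.2)
    exact h1
  · rintro ⟨y, s⟩ hz ⟨y', s'⟩ hz' heq
    simp only [Finset.mem_filter, Finset.mem_univ, true_and] at hz hz'
    simp only at heq
    have h1 : φ y = φ y' := by
      apply uniq (hH.map φ) hn' hg' hs' (z := φ (c * y + s))
      · rw [eval_map, eval₂_at_apply, hz.1, map_zero]
      · rw [eval_map, eval₂_at_apply, hz'.1, map_zero]
      · rw [eval_map, eval₂_at_apply, ← hz.2, ← map_mul, ← map_sub, ← map_pow]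
        congr 2
        ring
      · rw [heq, eval_map, eval₂_at_apply, ← hz'.2, ← map_mul, ← map_sub, ← map_pow]
        congr 2
        ring
    have h2 : y = y' := φ.injective h1
    subst h2
    rw [Prod.mk.injEq]
    exact ⟨rfl, add_left_cancel heq⟩
  · intro z hz
    simp only [Finset.mem_filter, Finset.mem_univ, true_and] at hz
    have h1 : (Gc (H.map φ) (g.map φ) (φ c)).eval (φ z) = 0 := by
      rw [← Gc_map φ c hd, eval_map, eval₂_at_apply, hz, map_zero]
    rw [Gc_split (hH.map φ) (IsAlgClosed.splits _) (φ c) hn' hg', eval_multiset_prod,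
      Multiset.prod_eq_zero_iff, Multiset.map_map, Multiset.mem_map] at h1
    obtain ⟨ρ, hρ, h2⟩ := h1
    rw [mem_roots (hH.map φ).ne_zero, IsRoot.def] at hρ
    simp only [Function.comp_apply, eval_sub, eval_pow, eval_X, eval_C] at h2
    have h3 : (φ z - φ c * ρ) ^ 2 = (g.map φ).eval ρ := sub_eq_zero.1 h2
    have h4 : ρ = ρ ^ Fintype.card F := by
      apply uniq (hH.map φ) hn' hg' hs' (z := φ z) hρ _ h3
      · have h1 : ∀ x : AlgebraicClosure F,
            FiniteField.frobeniusAlgHom F (AlgebraicClosure F) x = x ^ Fintype.card F := fun x => by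
          rw [FiniteField.coe_frobeniusAlgHom]
        rw [frob_eq, ← h3, ← h1, ← h1, map_pow, map_sub, map_mul]
        congr 2
        · exact (AlgHom.commutes _ _).symm
        · congr 1
          exact (AlgHom.commutes _ _).symm
      · rw [frob_eq, hρ, zero_pow Fintype.card_ne_zero]
    obtain ⟨y, hy⟩ := mem_range_of_frob h4.symm
    refine ⟨(y, z - c * y), ?_, ?_⟩
    · simp only [Finset.mem_filter, Finset.mem_univ, true_and]
      constructor
      · apply φ.injective
        rw [map_zero, ← hρ, ← hy, eval_map, eval₂_at_apply]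
      · apply φ.injective
        rw [map_pow, map_sub, map_mul, hφ, hy, ← hφ, h3, ← hy, eval_map, eval₂_at_apply]
    · simp only
      ring

end Run7.h984.TS
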