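import Pool.Agent.Run7.h875.TS.StmA
import Pool.Agent.R410.PW.Weil
import Pool.Agent.Run7.h984.TS.GcF

/-!
# The Weil bound for quadratic characters on plane curves, linear in the degree

Project TS (helper875), piece DOUBLE, helper984.
-/

set_option autoImplicit false
set_option linter.all false

open Polynomial

namespace Run7.h984.TS

open Pool.Agent.R410.PW Run7.h875.TS

section count

variable {F : Type} [Field F] [Fintype F]

theorem evalEval_eq (t y : F) (f : F[X][X]) : evalEval t y f = (f.map (evalRingHom t)).eval y := by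
  rw [← eval₂_evalRingHom, eval_map]

open scoped Classical in
/-- the points of the double cover over `t` -/
noncomputable def Pn (H g : F[X][X]) (t : F) : ℕ :=
  (Finset.univ.filter fun z : F × F => evalEval t z.1 H = 0 ∧ z.2 ^ 2 = evalEval t z.1 g).card

open scoped Classical in
/-- the zeros of `G` over `t` -/
noncomputable def Zn (G : F[X][X]) (t : F) : ℕ := (Finset.univ.filter fun z : F => evalEval t z G = 0).card

theorem Zn_le {G : F[X][X]} (hG : G.Monic) (t : F) : Zn G t ≤ G.natDegree := by
  classical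
  unfold Zn
  have h1 : (Finset.univ.filter fun z : F => evalEval t z G = 0) ⊆ (G.map (evalRingHom t)).roots.toFinset := by
    intro z hz
    rw [Finset.mem_filter, evalEval_eq] at hz
    rw [Multiset.mem_toFinset, mem_roots (hG.map _).ne_zero]
    exact hz.2
  refine (Finset.card_le_card h1).trans ((Multiset.toFinset_card_le _).trans ((card_roots' _).trans ?_))
  exact natDegree_map_le

theorem card_sqrt_le (a : F) (s : Finset F) (hs : ∀ x ∈ s, x ^ 2 = a) : s.card ≤ 2 := by
  classical
  have h0 : (X ^ 2 - C a : F[X]) ≠ 0 := X_pow_sub_C_ne_zero (by norm_num) a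
  have h1 : s ⊆ (X ^ 2 - C a : F[X]).roots.toFinset := by
    intro z hz
    rw [Multiset.mem_toFinset, mem_roots h0, IsRoot.def, eval_sub, eval_pow, eval_X, eval_C, hs z hz, sub_self]
  refine (Finset.card_le_card h1).trans ((Multiset.toFinset_card_le _).trans ((card_roots' _).trans ?_))
  rw [natDegree_X_pow_sub_C]

theorem Pn_le {H : F[X][X]} (hH : H.Monic) (g : F[X][X]) (t : F) : Pn H g t ≤ 2 * H.natDegree := by
  classical
  unfold Pn
  have h1 : (Finset.univ.filter fun z : F × F => evalEval t z.1 H = 0 ∧ z.2 ^ 2 = evalEval t z.1 g).card ≤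
      2 * (Finset.univ.filter fun z : F => evalEval t z H = 0).card := by
    apply Finset.card_le_mul_card_image_of_maps_to (f := Prod.fst)
    · rintro ⟨y, s⟩ hz
      simp only [Finset.mem_filter, Finset.mem_univ, true_and] at hz ⊢
      exact hz.1
    · intro y hy
      refine le_trans (le_of_eq ?_) (card_sqrt_le (evalEval t y g)
        (Finset.univ.filter fun s : F => s ^ 2 = evalEval t y g) (fun x hx => (Finset.mem_filter.1 hx).2))
      refine Finset.card_bij (fun z _ => z.2) ?_ ?_ ?_
      · rintro ⟨y', s⟩ hz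
        simp only [Finset.mem_filter, Finset.mem_univ, true_and] at hz ⊢
        rw [hz.1.2, hz.2]
      · rintro ⟨y', s⟩ hz ⟨y'', s'⟩ hz' h
        simp only [Finset.mem_filter, Finset.mem_univ, true_and] at hz hz'
        simp only at h
        rw [hz.2, hz'.2, h]
      · intro s hs
        simp only [Finset.mem_filter, Finset.mem_univ, true_and] at hs hy
        exact ⟨(y, s), by simp [hs, hy], rfl⟩
  exact h1.trans (Nat.mul_le_mul_left 2 (Zn_le hH t))

/-- The two counts agree at the good `t`. -/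
theorem Pn_eq {H g : F[X][X]} (hH : H.Monic) (hn : 0 < H.natDegree) (hg : g.natDegree ≤ 2 * H.natDegree)
    (c : F[X]) {t : F} (ht : (Dc (Gc H g c) (2 * H.natDegree)).eval t ≠ 0) : Pn H g t = Zn (Gc H g c) t := by
  classical
  have hd : (H.map (evalRingHom t)).natDegree = H.natDegree := hH.natDegree_map _
  have hG := Gc_map (evalRingHom t) (g := g) c hd
  have hs : (Gc (H.map (evalRingHom t)) (g.map (evalRingHom t)) (evalRingHom t c)).Separable := by
    rw [← hG]
    exact sep_of_Dc (evalRingHom t) (m := 2 * H.natDegree) (by omega) (Gc_monic hH hn hg c).2.le ht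
  have h1 := fiber (hH.map (evalRingHom t)) (by rw [hd]; exact hn)
    (by rw [hd]; exact natDegree_map_le.trans hg) hs
  unfold Pn Zn
  rw [← hG] at h1
  simp only [evalEval_eq]
  convert h1 using 2

theorem sum_diff {H g : F[X][X]} (hH : H.Monic) (hn : 0 < H.natDegree) (hg : g.natDegree ≤ 2 * H.natDegree)
    (c : F[X]) (hD : Dc (Gc H g c) (2 * H.natDegree) ≠ 0) :
    |(∑ t : F, (Pn H g t : ℝ)) - ∑ t : F, (Zn (Gc H g c) t : ℝ)| ≤
      2 * H.natDegree * (Dc (Gc H g c) (2 * H.natDegree)).natDegree := by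
  classical
  set D' := Dc (Gc H g c) (2 * H.natDegree) with hD'
  rw [← Finset.sum_sub_distrib]
  refine (Finset.abs_sum_le_sum_abs _ _).trans ?_
  have h1 : ∀ t : F, |(Pn H g t : ℝ) - (Zn (Gc H g c) t : ℝ)| ≤
      if t ∈ D'.roots.toFinset then (2 * H.natDegree : ℝ) else 0 := by
    intro t
    split_ifs with h
    · have h2 : (Pn H g t : ℝ) ≤ 2 * H.natDegree := by exact_mod_cast Pn_le hH g t
      have h3 : (Zn (Gc H g c) t : ℝ) ≤ 2 * H.natDegree := by
        have h4 := Gc_monic (g := g) hH hn hg c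
        have := Zn_le h4.1 t
        rw [h4.2] at this
        exact_mod_cast this
      rw [abs_sub_le_iff]
      constructor
      · linarith [(Nat.cast_nonneg (Zn (Gc H g c) t) : (0 : ℝ) ≤ _)]
      · linarith [(Nat.cast_nonneg (Pn H g t) : (0 : ℝ) ≤ _)]
    · have h2 : D'.eval t ≠ 0 := by
        intro h3
        exact h (Multiset.mem_toFinset.2 ((mem_roots hD).2 h3))
      rw [Pn_eq hH hn hg c h2, sub_self, abs_zero]
  refine (Finset.sum_le_sum fun t _ => h1 t).trans ?_
  rw [Finset.sum_ite_mem, Finset.univ_inter, Finset.sum_const, nsmul_eq_mul, mul_comm]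
  refine mul_le_mul_of_nonneg_left ?_ (by positivity)
  exact_mod_cast (Multiset.toFinset_card_le _).trans (card_roots' _)

open scoped Classical in
theorem sum_chi (h2 : (2 : F) ≠ 0) (H g : F[X][X]) :
    ∑ z ∈ Finset.univ.filter (fun z : F × F => evalEval z.1 z.2 H = 0), (1 + chi (evalEval z.1 z.2 g)) =
      ∑ t : F, (Pn H g t : ℝ) := by
  have hF : ringChar F ≠ 2 := by
    intro h
    apply h2
    have h1 := ringChar.Nat.cast_ringChar (R := F)
    rw [h] at h1
    exact_mod_cast h1
  have h3 : ∀ a : F, (1 + chi a) = ((Finset.univ.filter fun s : F => s ^ 2 = a).card : ℝ) := by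
    intro a
    have h4 := quadraticChar_card_sqrts hF a
    have h5 : ({x | x ^ 2 = a} : Set F).toFinset = Finset.univ.filter fun s : F => s ^ 2 = a := by
      ext x
      simp
    rw [h5] at h4
    unfold chi
    have h6 : ((Finset.univ.filter fun s : F => s ^ 2 = a).card : ℝ) =
        (((Finset.univ.filter fun s : F => s ^ 2 = a).card : ℤ) : ℝ) := by push_cast; rfl
    rw [h6, h4]
    push_cast
    ring
  rw [Finset.sum_filter, ← Finset.univ_product_univ, Finset.sum_product]
  refine Finset.sum_congr rfl fun t _ => ?_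
  rw [← Finset.sum_filter]
  unfold Pn
  rw [Finset.card_filter, Nat.cast_sum, ← Finset.univ_product_univ, Finset.sum_product, Finset.sum_filter]
  refine Finset.sum_congr rfl fun y _ => ?_
  split_ifs with h
  · simp only [h, true_and]
    rw [h3, Finset.card_filter, Nat.cast_sum]
  · simp only [h, false_and, if_false]
    simp

theorem sum_Zn (G : F[X][X]) :
    (∑ t : F, (Zn G t : ℝ)) = ({z : F × F | evalEval z.1 z.2 G = 0}.ncard : ℝ) := by
  classical
  have h1 : {z : F × F | evalEval z.1 z.2 G = 0} =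
      ((Finset.univ.filter fun z : F × F => evalEval z.1 z.2 G = 0 : Finset (F × F)) : Set (F × F)) := by
    ext z; simp
  rw [h1, Set.ncard_coe_finset, Finset.card_filter, ← Finset.univ_product_univ, Finset.sum_product,
    Nat.cast_sum]
  refine Finset.sum_congr rfl fun t _ => ?_
  unfold Zn
  rw [Finset.card_filter]

end count

/-- The constant. -/
def C0 (n d δ : ℕ) : ℕ :=
  let E := 3 * n * (d + 2 * (2 * n) ^ 2) + 3 * n
  2 * n * (4 * n * E) + WC (2 * n) E (4 * n * E) + WC n d δ

theorem WC_lin (n d δ N : ℕ) : WC n (d * (1 + N)) (δ * (1 + N)) ≤ WC n d δ * (1 + N) := by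
  unfold WC
  have h1 : 1 ≤ 1 + N := by omega
  have h2 : 0 ≤ n * N := Nat.zero_le _
  nlinarith [Nat.zero_le (n * n * N), Nat.zero_le (n * N), Nat.zero_le (n * d * n * N),
    Nat.zero_le (n * d * n * n * N), Nat.zero_le (δ * n * N)]

theorem WC_mono {n d δ d' δ' : ℕ} (h1 : d ≤ d') (h2 : δ ≤ δ') : WC n d δ ≤ WC n d' δ' := by
  unfold WC
  gcongr

open scoped Classical in
theorem count {F : Type} [Field F] [Fintype F] (h2 : (2 : F) ≠ 0) {H g A B : F[X][X]} {D : F[X]}
    (hH : H.Monic) (hn : 0 < H.natDegree) (hAB : A * H + B * derivative H = C D) (hD : D ≠ 0)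
    {d N δ : ℕ} (hδ : D.natDegree ≤ δ) (hd : ∀ i, (H.coeff i).natDegree ≤ d)
    (hN : ∀ i, (g.coeff i).natDegree ≤ N) (hg : g.natDegree ≤ 2 * H.natDegree)
    (hirr : Irreducible (H.map (mapRingHom (algebraMap F (AlgebraicClosure F)))))
    (hns : ¬ GSq (AlgebraicClosure F) H g) :
    |∑ z ∈ Finset.univ.filter (fun z : F × F => evalEval z.1 z.2 H = 0), chi (evalEval z.1 z.2 g)| ≤
      C0 H.natDegree d δ * (1 + N) * √(Nat.card F : ℝ) := by
  set φ : F →+* AlgebraicClosure F := algebraMap F (AlgebraicClosure F) with hφ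
  set n := H.natDegree with hndef
  have hq1 : (1 : ℝ) ≤ √(Nat.card F : ℝ) := by
    rw [Real.one_le_sqrt]
    exact_mod_cast Nat.one_le_iff_ne_zero.2 Nat.card_pos.ne'
  have hinj : Function.Injective (mapRingHom φ) := map_injective φ φ.injective
  have hdeg : (H.map (mapRingHom φ)).natDegree = n := hH.natDegree_map _
  have h2' : (2 : AlgebraicClosure F) ≠ 0 := by
    intro h
    apply h2
    apply φ.injective
    rw [map_ofNat, map_zero, h]
  obtain ⟨j, hj, hGirr, hGD⟩ := exists_good h2' (g := g.map (mapRingHom φ)) (A := A.map (mapRingHom φ))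
    (B := B.map (mapRingHom φ)) (D := D.map φ) (hH.map (mapRingHom φ)) (by rw [hdeg]; exact hn)
    (by rw [hdeg]; exact natDegree_map_le.trans hg)
    (by
      rw [← Polynomial.map_mul, derivative_map, ← Polynomial.map_mul, ← Polynomial.map_add, hAB, map_C]
      rfl)
    ((Polynomial.map_ne_zero_iff φ.injective).2 hD) hirr hns
  rw [hdeg] at hj hGD
  have hGmap : Gc (H.map (mapRingHom φ)) (g.map (mapRingHom φ)) (X ^ j) =
      (Gc H g (X ^ j)).map (mapRingHom φ) := by
    rw [Gc_map (mapRingHom φ) (X ^ j) (by rw [hdeg])]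
    congr 1
    rw [coe_mapRingHom, Polynomial.map_pow, map_X]
  rw [hGmap] at hGirr hGD
  rw [← Dc_map] at hGD
  set G := Gc H g (X ^ j) with hG
  have hDG : Dc G (2 * n) ≠ 0 := by
    intro h
    rw [h, map_zero] at hGD
    exact hGD rfl
  obtain ⟨hGm, hGd⟩ := Gc_monic (g := g) hH hn hg (X ^ j)
  rw [← hG] at hGm hGd
  set E := 3 * n * (d + 2 * (2 * n) ^ 2) + 3 * n with hE
  have hGc : ∀ i, (G.coeff i).natDegree ≤ E * (1 + N) := by
    intro i
    refine (Gc_coeff_natDegree (X ^ j) hd hN i).trans ?_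
    rw [natDegree_X_pow, ← hndef]
    have h3 : d + 2 * j + N ≤ (d + 2 * (2 * n) ^ 2 + 1) * (1 + N) := by nlinarith
    calc 3 * n * (d + 2 * j + N) ≤ 3 * n * ((d + 2 * (2 * n) ^ 2 + 1) * (1 + N)) := Nat.mul_le_mul_left _ h3
      _ = E * (1 + N) := by rw [hE]; ring
  have hDd : (Dc G (2 * n)).natDegree ≤ 4 * n * E * (1 + N) := by
    refine (Dc_natDegree hGc).trans (le_of_eq ?_)
    ring
  obtain ⟨A', B', hAB'⟩ := Dc_ideal (m := 2 * n) (by omega) hGd.le
  have hw1 := weil (AlgebraicClosure F) hGm (by rw [hGd]; omega) hAB' hDG hDd hGc hGirr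
  have hw2 := weil (AlgebraicClosure F) hH hn hAB hD hδ hd hirr
  have hs := sum_diff hH hn hg (X ^ j) hDG
  have hc := sum_chi h2 H g
  rw [Finset.sum_add_distrib, Finset.sum_const, nsmul_eq_mul, mul_one] at hc
  have hA : ((Finset.univ.filter fun z : F × F => evalEval z.1 z.2 H = 0).card : ℝ) =
      ({z : F × F | evalEval z.1 z.2 H = 0}.ncard : ℝ) := by
    have h1 : {z : F × F | evalEval z.1 z.2 H = 0} =
      ((Finset.univ.filter fun z : F × F => evalEval z.1 z.2 H = 0 : Finset (F × F)) : Set (F × F)) := by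
      ext z; simp
    rw [h1, Set.ncard_coe_finset]
  rw [hA] at hc
  rw [← hG, sum_Zn] at hs
  rw [hGd] at hw1
  set P : ℝ := ∑ t : F, (Pn H g t : ℝ)
  set a : ℝ := ({z : F × F | evalEval z.1 z.2 H = 0}.ncard : ℝ)
  set b : ℝ := ({z : F × F | evalEval z.1 z.2 G = 0}.ncard : ℝ)
  set r : ℝ := √(Nat.card F : ℝ)
  set q : ℝ := (Nat.card F : ℝ)
  have hN1 : (1 : ℝ) ≤ 1 + N := by
    have : (0 : ℝ) ≤ N := Nat.cast_nonneg N
    linarith
  have hr0 : (0 : ℝ) ≤ r := by linarith
  have e1 : |P - b| ≤ ((2 * n * (4 * n * E) : ℕ) : ℝ) * (1 + N) * r := by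
    refine hs.trans ?_
    have h3 : ((Dc G (2 * n)).natDegree : ℝ) ≤ ((4 * n * E : ℕ) : ℝ) * (1 + N) := by exact_mod_cast hDd
    have h4 : (2 * (n : ℝ) * ((Dc G (2 * n)).natDegree : ℝ)) ≤ ((2 * n * (4 * n * E) : ℕ) : ℝ) * (1 + N) := by
      calc (2 * (n : ℝ) * ((Dc G (2 * n)).natDegree : ℝ)) ≤ 2 * (n : ℝ) * (((4 * n * E : ℕ) : ℝ) * (1 + N)) :=
            mul_le_mul_of_nonneg_left h3 (by positivity)
        _ = ((2 * n * (4 * n * E) : ℕ) : ℝ) * (1 + N) := by push_cast; ring
    calc (2 * (n : ℝ) * ((Dc G (2 * n)).natDegree : ℝ)) ≤ ((2 * n * (4 * n * E) : ℕ) : ℝ) * (1 + N) := h4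
      _ ≤ ((2 * n * (4 * n * E) : ℕ) : ℝ) * (1 + N) * r := le_mul_of_one_le_right (by positivity) hq1
  have e2 : |b - q| ≤ (WC (2 * n) E (4 * n * E) : ℝ) * (1 + N) * r := by
    refine hw1.trans (mul_le_mul_of_nonneg_right ?_ hr0)
    exact_mod_cast WC_lin (2 * n) E (4 * n * E) N
  have e3 : |q - a| ≤ (WC n d δ : ℝ) * (1 + N) * r := by
    rw [abs_sub_comm]
    refine hw2.trans (mul_le_mul_of_nonneg_right ?_ hr0)
    exact le_mul_of_one_le_right (Nat.cast_nonneg _) hN1
  have e4 : ∑ z ∈ Finset.univ.filter (fun z : F × F => evalEval z.1 z.2 H = 0), chi (evalEval z.1 z.2 g) =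
      (P - b) + (b - q) + (q - a) := by linarith
  rw [e4]
  refine (abs_add_three _ _ _).trans ?_
  have e5 : ((C0 n d δ : ℕ) : ℝ) = ((2 * n * (4 * n * E) : ℕ) : ℝ) + (WC (2 * n) E (4 * n * E) : ℝ) +
      (WC n d δ : ℝ) := by
    unfold C0
    push_cast
    rw [hE]
    push_cast
    ring
  rw [e5]
  linarith

theorem ev2_eq {k F : Type} [Field k] [Field F] [Algebra k F] (t y : F) (H : k[X][X]) :
    ev2 t y H = evalEval t y (H.map (mapRingHom (algebraMap k F))) := by
  unfold ev2
  rw [← eval₂_evalRingHom, eval₂_map]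
  congr 1
  refine RingHom.ext fun f => ?_
  rw [RingHom.comp_apply, coe_mapRingHom, coe_evalRingHom, eval_map]
  rfl

theorem GSq_map {k F k' : Type} [Field k] [Field F] [Field k'] [Algebra k F] [Algebra k k'] [Algebra F k']
    [IsScalarTower k F k'] (H g : k[X][X]) :
    GSq k' (H.map (mapRingHom (algebraMap k F))) (g.map (mapRingHom (algebraMap k F))) ↔ GSq k' H g := by
  unfold GSq
  have h1 : ∀ f : k[X][X], (f.map (mapRingHom (algebraMap k F))).map (mapRingHom (algebraMap F k')) =
      f.map (mapRingHom (algebraMap k k')) := by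
    intro f
    rw [Polynomial.map_map, mapRingHom_comp, ← IsScalarTower.algebraMap_eq]
  simp only [h1]

/-- **DOUBLE** -/
theorem double : S_DOUBLE := by
  intro k _ _ H D h2 hH
  classical
  obtain ⟨A, B, hAB⟩ := hH.disc
  obtain ⟨d, hd⟩ : ∃ d : ℕ, ∀ i, (H.coeff i).natDegree ≤ d := by
    refine ⟨∑ i ∈ H.support, (H.coeff i).natDegree, fun i => ?_⟩
    by_cases hi : i ∈ H.support
    · exact Finset.single_le_sum (f := fun i => (H.coeff i).natDegree) (fun _ _ => Nat.zero_le _) hi
    · rw [notMem_support_iff.1 hi, natDegree_zero]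
      exact Nat.zero_le _
  refine ⟨C0 H.natDegree d D.natDegree + WC H.natDegree d D.natDegree, ?_, ?_⟩
  · intro F _ _ _
    haveI : Algebra.IsAlgebraic k F := Algebra.IsAlgebraic.of_finite k F
    haveI : Algebra.IsAlgebraic k (AlgebraicClosure F) := Algebra.IsAlgebraic.trans k F (AlgebraicClosure F)
    have h3 := hH.irr (AlgebraicClosure F)
    have hinj : Function.Injective (algebraMap k F) := (algebraMap k F).injective
    have hm : (H.map (mapRingHom (algebraMap k F))).natDegree = H.natDegree := hH.monic.natDegree_map _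
    have h4 := weil (AlgebraicClosure F) (A := A.map (mapRingHom (algebraMap k F)))
      (B := B.map (mapRingHom (algebraMap k F))) (D := D.map (algebraMap k F))
      (hH.monic.map (mapRingHom (algebraMap k F))) (by rw [hm]; exact hH.pos)
      (by
        rw [← Polynomial.map_mul, derivative_map, ← Polynomial.map_mul, ← Polynomial.map_add, hAB, map_C]
        rfl)
      ((Polynomial.map_ne_zero_iff hinj).2 hH.ne) (natDegree_map_le) (d := d)
      (fun i => by
        rw [coeff_map, coe_mapRingHom]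
        exact natDegree_map_le.trans (hd i))
      (by
        rw [Polynomial.map_map, mapRingHom_comp, ← IsScalarTower.algebraMap_eq]
        exact h3)
    rw [hm] at h4
    have h5 : ((Finset.univ.filter fun z : F × F => ev2 z.1 z.2 H = 0).card : ℝ) =
      ({z : F × F | evalEval z.1 z.2 (H.map (mapRingHom (algebraMap k F))) = 0}.ncard : ℝ) := by
      have h1 : {z : F × F | evalEval z.1 z.2 (H.map (mapRingHom (algebraMap k F))) = 0} =
        ((Finset.univ.filter fun z : F × F => ev2 z.1 z.2 H = 0 : Finset (F × F)) : Set (F × F)) := by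
        ext z; simp [ev2_eq]
      rw [h1, Set.ncard_coe_finset]
    rw [h5]
    unfold cd
    refine h4.trans (mul_le_mul_of_nonneg_right ?_ (Real.sqrt_nonneg _))
    push_cast
    linarith [(Nat.cast_nonneg (C0 H.natDegree d D.natDegree) : (0 : ℝ) ≤ _)]
  · intro g N hg hN hns F _ _ _
    haveI : Algebra.IsAlgebraic k F := Algebra.IsAlgebraic.of_finite k F
    haveI : Algebra.IsAlgebraic k (AlgebraicClosure F) := Algebra.IsAlgebraic.trans k F (AlgebraicClosure F)
    have h3 := hH.irr (AlgebraicClosure F)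
    have hinj : Function.Injective (algebraMap k F) := (algebraMap k F).injective
    have hm : (H.map (mapRingHom (algebraMap k F))).natDegree = H.natDegree := hH.monic.natDegree_map _
    have h2' : (2 : F) ≠ 0 := by
      intro h
      apply h2
      apply hinj
      rw [map_ofNat, map_zero, h]
    have h4 := count h2' (g := g.map (mapRingHom (algebraMap k F))) (A := A.map (mapRingHom (algebraMap k F)))
      (B := B.map (mapRingHom (algebraMap k F))) (D := D.map (algebraMap k F)) (d := d) (N := N)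
      (δ := D.natDegree)
      (hH.monic.map (mapRingHom (algebraMap k F))) (by rw [hm]; exact hH.pos)
      (by
        rw [← Polynomial.map_mul, derivative_map, ← Polynomial.map_mul, ← Polynomial.map_add, hAB, map_C]
        rfl)
      ((Polynomial.map_ne_zero_iff hinj).2 hH.ne) (natDegree_map_le)
      (fun i => by
        rw [coeff_map, coe_mapRingHom]
        exact natDegree_map_le.trans (hd i))
      (fun i => by
        rw [coeff_map, coe_mapRingHom]
        exact natDegree_map_le.trans (hN i))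
      (by rw [hm]; exact natDegree_map_le.trans hg)
      (by
        rw [Polynomial.map_map, mapRingHom_comp, ← IsScalarTower.algebraMap_eq]
        exact h3)
      (by
        rw [GSq_map]
        exact hns (AlgebraicClosure F))
    rw [hm] at h4
    simp only [← ev2_eq] at h4
    unfold cd
    refine h4.trans (mul_le_mul_of_nonneg_right ?_ (Real.sqrt_nonneg _))
    refine mul_le_mul_of_nonneg_right ?_ (by positivity)
    push_cast
    linarith [(Nat.cast_nonneg (WC H.natDegree d D.natDegree) : (0 : ℝ) ≤ _)]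

end Run7.h984.TS
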