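import Pool.Agent.Run7.h875.TS.Mod

/-!
# M2

Project TS (helper875), part M2 of MODEL, helper984.
-/

set_option autoImplicit false
set_option linter.all false

open Polynomial

namespace Run7.h984.TS

open Run7.h875.TS

section

variable {k' : Type} [Field k'] (τ : k')

/-- `X ↦ τ + T` -/
noncomputable def ps : k'[X] →+* PowerSeries k' :=
  (Polynomial.coeToPowerSeries.ringHom).comp (Polynomial.taylorAlgHom τ).toRingHom

theorem ps_apply (f : k'[X]) : ps τ f = ((taylor τ f : k'[X]) : PowerSeries k') := rfl

theorem ps_injective : Function.Injective (ps τ) := by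
  intro f g h
  rw [ps_apply, ps_apply] at h
  exact taylor_injective τ (Polynomial.coe_injective k' h)

theorem ps_const (f : k'[X]) : PowerSeries.constantCoeff (ps τ f) = f.eval τ := by
  rw [ps_apply, ← PowerSeries.coeff_zero_eq_constantCoeff_apply, Polynomial.coeff_coe, taylor_coeff_zero]

theorem ps_one (f : k'[X]) : PowerSeries.coeff 1 (ps τ f) = (derivative f).eval τ := by
  rw [ps_apply, Polynomial.coeff_coe, taylor_coeff_one]

theorem ps_nsq (d : k'[X]) (h0 : d.eval τ = 0) (h1 : (derivative d).eval τ ≠ 0) :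
    ¬ IsSquare (algebraMap (PowerSeries k') (LaurentSeries k') (ps τ d)) := by
  rintro ⟨s, hs⟩
  have hint : IsIntegral (PowerSeries k') s := by
    refine ⟨X ^ 2 - C (ps τ d), monic_X_pow_sub_C _ two_ne_zero, ?_⟩
    rw [eval₂_sub, eval₂_pow, eval₂_X, eval₂_C, hs]
    ring
  obtain ⟨σ, rfl⟩ := IsIntegrallyClosed.isIntegral_iff.1 hint
  rw [← map_mul] at hs
  have h2 : ps τ d = σ * σ := IsFractionRing.injective (PowerSeries k') (LaurentSeries k') hs
  have h3 := congrArg PowerSeries.constantCoeff h2
  rw [ps_const, h0, map_mul] at h3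
  have h4 : PowerSeries.constantCoeff σ = 0 := by
    rcases mul_eq_zero.1 h3.symm with h | h <;> exact h
  have h5 := congrArg (PowerSeries.coeff 1) h2
  rw [ps_one, PowerSeries.coeff_mul] at h5
  apply h1
  rw [h5, Finset.Nat.antidiagonal_succ, Finset.sum_cons, Finset.sum_map]
  simp [h4]

theorem cub_sep (A B : k') (h : 4 * A ^ 3 + 27 * B ^ 2 ≠ 0) :
    (X ^ 3 + C A * X + C B : k'[X]).Separable := by
  refine ⟨C (4 * A ^ 3 + 27 * B ^ 2)⁻¹ * (-(C 18 * C A * X - C 27 * C B)),
    C (4 * A ^ 3 + 27 * B ^ 2)⁻¹ * (C 6 * C A * X ^ 2 - C 9 * C B * X + C 4 * C A ^ 2), ?_⟩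
  have h1 : derivative (X ^ 3 + C A * X + C B : k'[X]) = C 3 * X ^ 2 + C A := by
    rw [derivative_add, derivative_add, derivative_X_pow, derivative_C_mul, derivative_X, derivative_C]
    simp only [Nat.cast_ofNat, mul_one, add_zero]
  rw [h1]
  have h2 : C (4 * A ^ 3 + 27 * B ^ 2)⁻¹ * C (4 * A ^ 3 + 27 * B ^ 2) = (1 : k'[X]) := by
    rw [← C_mul, inv_mul_cancel₀ h, C_1]
  rw [← h2]
  simp only [C_add, C_mul, C_pow]
  have e18 : (C (18 : k')) = 18 := rfl
  have e27 : (C (27 : k')) = 27 := rfl
  have e6 : (C (6 : k')) = 6 := rfl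
  have e9 : (C (9 : k')) = 9 := rfl
  have e4 : (C (4 : k')) = 4 := rfl
  have e3 : (C (3 : k')) = 3 := rfl
  rw [e18, e27, e6, e9, e4, e3]
  ring

theorem cub_natDegree {R : Type} [CommRing R] [Nontrivial R] (A B : R) :
    (X ^ 3 + C A * X + C B : R[X]).natDegree = 3 := by
  compute_degree!

theorem ps_splits [IsAlgClosed k'] (A B : k'[X]) (h : (4 * A ^ 3 + 27 * B ^ 2).eval τ ≠ 0) :
    (X ^ 3 + C (algebraMap (PowerSeries k') (LaurentSeries k') (ps τ A)) * X +
      C (algebraMap (PowerSeries k') (LaurentSeries k') (ps τ B)) : (LaurentSeries k')[X]).Splits := by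
  classical
  set f0 : k'[X] := X ^ 3 + C (A.eval τ) * X + C (B.eval τ) with hf0
  have hsep : f0.Separable := by
    apply cub_sep
    simpa using h
  set f1 : (PowerSeries k')[X] := X ^ 3 + C (ps τ A) * X + C (ps τ B) with hf1
  have hmap : f1.map PowerSeries.constantCoeff = f0 := by
    rw [hf1, hf0, ← ps_const, ← ps_const]
    simp
  have hf0n : f0 ≠ 0 := by
    intro h1
    have h2 := cub_natDegree (A.eval τ) (B.eval τ)
    rw [← hf0, h1, natDegree_zero] at h2
    omega
  have hlift : ∀ r ∈ f0.roots.toFinset, ∃ α : PowerSeries k', f1.eval α = 0 ∧ PowerSeries.constantCoeff α = r := by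
    intro r hr
    rw [Multiset.mem_toFinset, mem_roots hf0n, IsRoot.def] at hr
    have hev : ∀ f : (PowerSeries k')[X], PowerSeries.constantCoeff (f.eval (PowerSeries.C r)) =
        (f.map PowerSeries.constantCoeff).eval r := by
      intro f
      rw [eval_map, ← eval₂_at_apply, PowerSeries.constantCoeff_C]
    have hm : f1.Monic := by
      rw [hf1]
      monicity!
    obtain ⟨α, h1, h2⟩ := HenselianRing.is_henselian (I := Ideal.span {(PowerSeries.X : PowerSeries k')}) f1 hm
      (PowerSeries.C r) (by
        rw [Ideal.mem_span_singleton, PowerSeries.X_dvd_iff, hev, hmap, hr])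
      (by
        apply IsUnit.map
        rw [PowerSeries.isUnit_iff_constantCoeff, hev, ← derivative_map, hmap, isUnit_iff_ne_zero]
        obtain ⟨u, v, huv⟩ := hsep
        intro h1
        have h2 := congrArg (eval r) huv
        rw [eval_add, eval_mul, eval_mul, hr, h1, mul_zero, mul_zero, add_zero, eval_one] at h2
        exact zero_ne_one h2)
    refine ⟨α, h1, ?_⟩
    rw [Ideal.mem_span_singleton, PowerSeries.X_dvd_iff, map_sub, PowerSeries.constantCoeff_C] at h2
    exact sub_eq_zero.1 h2
  choose! α hα1 hα2 using hlift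
  set g : (LaurentSeries k')[X] := (X ^ 3 + C (algebraMap (PowerSeries k') (LaurentSeries k') (ps τ A)) * X +
      C (algebraMap (PowerSeries k') (LaurentSeries k') (ps τ B))) with hg
  have hgm : f1.map (algebraMap (PowerSeries k') (LaurentSeries k')) = g := by
    rw [hf1, hg]
    simp
  have hgn : g ≠ 0 := by
    intro h1
    have h2 := cub_natDegree (algebraMap (PowerSeries k') (LaurentSeries k') (ps τ A))
      (algebraMap (PowerSeries k') (LaurentSeries k') (ps τ B))
    rw [← hg, h1, natDegree_zero] at h2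
    omega
  rw [splits_iff_card_roots, hg, cub_natDegree, ← hg]
  apply le_antisymm
  · refine (card_roots' _).trans ?_
    rw [hg, cub_natDegree]
  · have h3 : f0.roots.toFinset.card = 3 := by
      rw [Multiset.toFinset_card_of_nodup (nodup_roots hsep),
        ← (IsAlgClosed.splits f0).natDegree_eq_card_roots, hf0, cub_natDegree]
    have h4 : (f0.roots.toFinset.image fun r =>
        algebraMap (PowerSeries k') (LaurentSeries k') (α r)) ⊆ g.roots.toFinset := by
      intro x hx
      obtain ⟨r, hr, rfl⟩ := Finset.mem_image.1 hx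
      rw [Multiset.mem_toFinset, mem_roots hgn, IsRoot.def, ← hgm, eval_map, eval₂_at_apply, hα1 r hr, map_zero]
    have h5 : (f0.roots.toFinset.image fun r =>
        algebraMap (PowerSeries k') (LaurentSeries k') (α r)).card = 3 := by
      rw [Finset.card_image_of_injOn, h3]
      intro r hr r' hr' h6
      have h7 : α r = α r' := IsFractionRing.injective (PowerSeries k') (LaurentSeries k') h6
      rw [← hα2 r hr, ← hα2 r' hr', h7]
    rw [← h5]
    exact (Finset.card_le_card h4).trans (Multiset.toFinset_card_le _)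

end

theorem m2 : S_M2 := by
  intro k' K' _ _ _ _ _ τ h6
  set g : k'[X] →+* LaurentSeries k' := (algebraMap (PowerSeries k') (LaurentSeries k')).comp (ps τ) with hg
  have hinj : Function.Injective g :=
    (IsFractionRing.injective (PowerSeries k') (LaurentSeries k')).comp (ps_injective τ)
  refine ⟨IsFractionRing.lift hinj, ?_, ?_⟩
  · intro A B h
    have h1 := ps_splits τ A B h
    have h2 : ((X ^ 3 + C (algebraMap k'[X] K' A) * X + C (algebraMap k'[X] K' B) : K'[X]).map
        (IsFractionRing.lift hinj)) = (X ^ 3 + C (algebraMap (PowerSeries k') (LaurentSeries k') (ps τ A)) * X +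
      C (algebraMap (PowerSeries k') (LaurentSeries k') (ps τ B)) : (LaurentSeries k')[X]) := by
      simp only [Polynomial.map_add, Polynomial.map_mul, Polynomial.map_pow, map_X, map_C,
        IsFractionRing.lift_algebraMap]
      rfl
    rw [h2]
    exact h1
  · intro d h0 h1
    rw [IsFractionRing.lift_algebraMap]
    exact ps_nsq τ d h0 h1

end Run7.h984.TS
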