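import Pool.Agent.Run7.h984.TS.Double

/-!
# The bijection of points in the model

Project TS (helper875), part (4) of MODEL, helper984.
-/

set_option autoImplicit false
set_option linter.all false

open Polynomial

namespace Run7.h984.TS

open Run7.h875.TS

section bij

variable {R ι : Type} [CommRing R] {L : Type} [Field L] (φ : R →+* L) {a b : ι → R} {J : Finset ι}
  {H : R[X]} {D : R} {e : ι → R[X]} {c : ι → R}

theorem bij_root (hD : φ D ≠ 0)
    (hroot : ∀ j ∈ J, H ∣ e j ^ 3 + C (a j * D ^ 2) * e j + C (b j * D ^ 3)) {y : L}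
    (hy : H.eval₂ φ y = 0) {j : ι} (hj : j ∈ J) :
    ((e j).eval₂ φ y / φ D) ^ 3 + φ (a j) * ((e j).eval₂ φ y / φ D) + φ (b j) = 0 := by
  obtain ⟨f, hf⟩ := hroot j hj
  have h1 := congrArg (eval₂ φ y) hf
  rw [eval₂_mul, hy, zero_mul, eval₂_add, eval₂_add, eval₂_pow, eval₂_mul, eval₂_C, eval₂_C, map_mul,
    map_mul, map_pow, map_pow] at h1
  field_simp
  linear_combination h1

theorem bij_inj (hD : φ D ≠ 0) (hc : H ∣ C D * X - ∑ j ∈ J, C (c j) * e j) {y y' : L}
    (hy : H.eval₂ φ y = 0) (hy' : H.eval₂ φ y' = 0)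
    (h : ∀ j ∈ J, (e j).eval₂ φ y / φ D = (e j).eval₂ φ y' / φ D) : y = y' := by
  obtain ⟨f, hf⟩ := hc
  have h1 : ∀ z : L, H.eval₂ φ z = 0 → φ D * z = ∑ j ∈ J, φ (c j) * (e j).eval₂ φ z := by
    intro z hz
    have h2 := congrArg (eval₂ φ z) hf
    rw [eval₂_mul, hz, zero_mul, eval₂_sub, eval₂_mul, eval₂_C, eval₂_X, eval₂_finset_sum] at h2
    rw [sub_eq_zero.1 h2]
    refine Finset.sum_congr rfl fun j _ => ?_
    rw [eval₂_mul, eval₂_C]
  have h2 : φ D * y = φ D * y' := by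
    rw [h1 y hy, h1 y' hy']
    refine Finset.sum_congr rfl fun j hj => ?_
    rw [(div_left_inj' hD).1 (h j hj)]
  exact mul_left_cancel₀ hD h2

theorem bij_surj [IsAlgClosed L] {A B : R[X]} (hH : H.Monic) (hdeg : H.natDegree = 3 ^ J.card)
    (hAB : A * H + B * derivative H = C D) (hD : φ D ≠ 0)
    (hroot : ∀ j ∈ J, H ∣ e j ^ 3 + C (a j * D ^ 2) * e j + C (b j * D ^ 3))
    (hc : H ∣ C D * X - ∑ j ∈ J, C (c j) * e j) (x : ι → L)
    (hx : ∀ j ∈ J, x j ^ 3 + φ (a j) * x j + φ (b j) = 0) :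
    ∃ y : L, H.eval₂ φ y = 0 ∧ ∀ j ∈ J, (e j).eval₂ φ y / φ D = x j := by
  classical
  have hsep : (H.map φ).Separable := sep_of_disc φ hAB hD
  let T : {j // j ∈ J} → Finset L := fun j => (X ^ 3 + C (φ (a j)) * X + C (φ (b j)) : L[X]).roots.toFinset
  have hnat : ∀ j : {j // j ∈ J}, (X ^ 3 + C (φ (a j)) * X + C (φ (b j)) : L[X]).natDegree = 3 := by
    intro j; compute_degree!
  have hne : ∀ j : {j // j ∈ J}, (X ^ 3 + C (φ (a j)) * X + C (φ (b j)) : L[X]) ≠ 0 := by
    intro j h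
    have h1 := hnat j
    rw [h, natDegree_zero] at h1
    omega
  have hmem : ∀ (j : {j // j ∈ J}) (z : L), z ∈ T j ↔ z ^ 3 + φ (a j) * z + φ (b j) = 0 := by
    intro j z
    rw [Multiset.mem_toFinset, mem_roots (hne j), IsRoot.def]
    simp
  have hT : ∀ j, (T j).card ≤ 3 := by
    intro j
    refine (Multiset.toFinset_card_le _).trans ((card_roots' _).trans ?_)
    rw [hnat j]
  have hcardT : (Fintype.piFinset T).card ≤ 3 ^ J.card := by
    rw [Fintype.card_piFinset]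
    refine (Finset.prod_le_prod (fun _ _ => Nat.zero_le _) fun j _ => hT j).trans ?_
    rw [Finset.prod_const, Finset.card_univ, Fintype.card_coe]
  let S := (H.map φ).roots.toFinset
  have hS : S.card = 3 ^ J.card := by
    rw [Multiset.toFinset_card_of_nodup (nodup_roots hsep), ← (IsAlgClosed.splits _).natDegree_eq_card_roots,
      hH.natDegree_map, hdeg]
  have hSm : ∀ y, y ∈ S ↔ H.eval₂ φ y = 0 := by
    intro y
    rw [Multiset.mem_toFinset, mem_roots (hH.map φ).ne_zero, IsRoot.def, eval_map]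
  let Φ : L → ({j // j ∈ J} → L) := fun y j => (e j).eval₂ φ y / φ D
  have h1 : S.image Φ ⊆ Fintype.piFinset T := by
    intro f hf
    obtain ⟨y, hy, rfl⟩ := Finset.mem_image.1 hf
    rw [Fintype.mem_piFinset]
    intro j
    rw [hmem]
    exact bij_root φ hD hroot ((hSm y).1 hy) j.2
  have h2 : (S.image Φ).card = S.card := by
    apply Finset.card_image_of_injOn
    intro y hy y' hy' h
    exact bij_inj φ hD hc ((hSm y).1 hy) ((hSm y').1 hy') fun j hj => congrFun h ⟨j, hj⟩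
  have h3 := Finset.eq_of_subset_of_card_le h1 (by rw [h2, hS]; exact hcardT)
  have h4 : (fun j : {j // j ∈ J} => x j) ∈ Fintype.piFinset T := by
    rw [Fintype.mem_piFinset]
    intro j
    rw [hmem]
    exact hx j j.2
  rw [← h3] at h4
  obtain ⟨y, hy, hy2⟩ := Finset.mem_image.1 h4
  exact ⟨y, (hSm y).1 hy, fun j hj => congrFun hy2 ⟨j, hj⟩⟩

end bij

/-- The field `bij` of `IsModel`. -/
theorem model_bij {k ι : Type} [Field k] {a b : ι → k[X]} {J : Finset ι} {H : k[X][X]} {D : k[X]}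
    {e : ι → k[X][X]} {c : ι → k[X]} (hH : H.Monic) (hdeg : H.natDegree = 3 ^ J.card)
    (hAB : ∃ A B : k[X][X], A * H + B * derivative H = C D)
    (hroot : ∀ j ∈ J, H ∣ e j ^ 3 + C (a j * D ^ 2) * e j + C (b j * D ^ 3))
    (hc : H ∣ C D * X - ∑ j ∈ J, C (c j) * e j) :
    ∀ (F : Type) [Field F] [Finite F] [Algebra k F] (t : F), aeval t D ≠ 0 →
      (∀ y : F, ev2 t y H = 0 → ∀ j ∈ J, (ev2 t y (e j) / aeval t D) ^ 3 +
        aeval t (a j) * (ev2 t y (e j) / aeval t D) + aeval t (b j) = 0) ∧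
      ∀ c : ι → F, (∀ j ∈ J, c j ^ 3 + aeval t (a j) * c j + aeval t (b j) = 0) →
        ∃! y : F, ev2 t y H = 0 ∧ ∀ j ∈ J, ev2 t y (e j) / aeval t D = c j := by
  intro F _ _ _ t ht
  haveI := Fintype.ofFinite F
  obtain ⟨A, B, hAB⟩ := hAB
  set φ : k[X] →+* F := (aeval t : k[X] →ₐ[k] F).toRingHom with hφ
  have hφD : φ D ≠ 0 := ht
  refine ⟨fun y hy j hj => bij_root φ hφD hroot hy hj, ?_⟩
  intro x hx
  set ψ : F →+* AlgebraicClosure F := algebraMap F (AlgebraicClosure F) with hψ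
  have hψD : (ψ.comp φ) D ≠ 0 := by
    intro h
    apply hφD
    apply ψ.injective
    rw [map_zero]
    exact h
  obtain ⟨y₀, h1, h2⟩ := bij_surj (ψ.comp φ) hH hdeg hAB hψD hroot hc (fun j => ψ (x j)) (by
    intro j hj
    have h3 := congrArg ψ (hx j hj)
    rw [map_add, map_add, map_pow, map_mul, map_zero] at h3
    exact h3)
  have hfr : ∀ f : k[X][X], f.eval₂ (ψ.comp φ) (y₀ ^ Fintype.card F) =
      (f.eval₂ (ψ.comp φ) y₀) ^ Fintype.card F := by
    intro f
    have h3 := frob_eq (L := AlgebraicClosure F) (f.map φ) y₀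
    rw [Polynomial.map_map, eval_map, eval_map] at h3
    exact h3
  have hpow : ∀ x : F, (ψ x) ^ Fintype.card F = ψ x := by
    intro x
    rw [← map_pow, FiniteField.pow_card]
  have h3 : y₀ ^ Fintype.card F = y₀ := by
    refine bij_inj (ψ.comp φ) hψD hc ?_ h1 ?_
    · rw [hfr, h1, zero_pow Fintype.card_ne_zero]
    · intro j hj
      have h4 : (ψ.comp φ) D ^ Fintype.card F = (ψ.comp φ) D := hpow (φ D)
      rw [hfr, ← h4, ← div_pow, h2 j hj, hpow]
      rw [h4]
      exact (h2 j hj).symm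
  obtain ⟨y, hy⟩ := mem_range_of_frob h3
  rw [← hψ] at hy
  have hev : ∀ (f : k[X][X]) (z : F), f.eval₂ (ψ.comp φ) (ψ z) = ψ (f.eval₂ φ z) := by
    intro f z
    rw [hom_eval₂]
  refine ⟨y, ⟨?_, ?_⟩, ?_⟩
  · apply ψ.injective
    have h4 := hev H y
    rw [hy, h1] at h4
    rw [map_zero]
    exact h4.symm
  · intro j hj
    apply ψ.injective
    have h4 := h2 j hj
    rw [← hy, hev] at h4
    rw [← h4, map_div₀]
    rfl
  · rintro y' ⟨h4, h5⟩
    refine bij_inj φ hφD hc h4 ?_ ?_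
    · apply ψ.injective
      have h6 := hev H y
      rw [hy, h1] at h6
      rw [map_zero]
      exact h6.symm
    · intro j hj
      have h6 := h2 j hj
      rw [← hy, hev] at h6
      have h7 : (e j).eval₂ φ y / φ D = x j := by
        apply ψ.injective
        rw [← h6, map_div₀]
        rfl
      rw [h7]
      exact h5 j hj

end Run7.h984.TS
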