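import Mathlib

/-!
# The norm of `(Y - c Z) ^ 2 - g(Z)`

Project TS (helper875), piece DOUBLE, helper984. For a monic polynomial `H` and a polynomial `g` in `Z` over
`R` the polynomial `Gc H g c` in `Y` over `R` is the resultant of `H` and `(Y - c Z) ^ 2 - g(Z)`.
-/

set_option autoImplicit false
set_option linter.all false

open Polynomial

namespace Run7.h984.TS

section basic

variable {R S : Type*} [CommRing R] [CommRing S]

/-- `(Y - c Z) ^ 2 - g(Z)` as a polynomial in `Z` over `R[Y]`. -/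
noncomputable def qd (c : R) (g : R[X]) : R[X][X] := (C X - C (C c) * X) ^ 2 - g.map C

/-- The resultant of `H` and `(Y - c Z) ^ 2 - g(Z)`. -/
noncomputable def Gc (H g : R[X]) (c : R) : R[X] :=
  resultant (H.map C) (qd c g) H.natDegree (2 * H.natDegree)

theorem qd_natDegree_le {H g : R[X]} (c : R) (hn : 0 < H.natDegree) (hg : g.natDegree ≤ 2 * H.natDegree) :
    (qd c g).natDegree ≤ 2 * H.natDegree := by
  unfold qd
  refine (natDegree_sub_le _ _).trans (max_le ?_ ((natDegree_map_le).trans hg))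
  refine (natDegree_pow_le).trans ?_
  have h1 : (C X - C (C c) * X : R[X][X]).natDegree ≤ 1 := by
    refine (natDegree_sub_le _ _).trans (max_le ?_ ?_)
    · rw [natDegree_C]; exact Nat.zero_le _
    · refine (natDegree_C_mul_le _ _).trans natDegree_X_le
  omega

theorem qd_map (φ : R →+* S) (c : R) (g : R[X]) :
    (qd c g).map (mapRingHom φ) = qd (φ c) (g.map φ) := by
  unfold qd
  simp only [Polynomial.map_sub, Polynomial.map_pow, Polynomial.map_mul, map_C, coe_mapRingHom, map_X,
    Polynomial.map_map]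
  congr 2
  ext a
  simp

theorem Gc_map (φ : R →+* S) {H g : R[X]} (c : R) (hd : (H.map φ).natDegree = H.natDegree) :
    (Gc H g c).map φ = Gc (H.map φ) (g.map φ) (φ c) := by
  unfold Gc
  rw [hd, ← qd_map]
  have h1 : (H.map φ).map C = (H.map C).map (mapRingHom φ) := by
    rw [Polynomial.map_map, Polynomial.map_map]
    congr 1
    ext a
    simp
  rw [h1, resultant_map_map]
  rfl

/-- The resultant is in the ideal. -/
theorem Gc_ideal {H g : R[X]} (c : R) (hn : 0 < H.natDegree) (hg : g.natDegree ≤ 2 * H.natDegree) :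
    ∃ p q : R[X][X], H.map C * p + qd c g * q = C (Gc H g c) := by
  obtain ⟨p, q, -, -, h⟩ := exists_mul_add_mul_eq_C_resultant (H.map C) (qd c g)
    (m := H.natDegree) (n := 2 * H.natDegree) (natDegree_map_le) (qd_natDegree_le c hn hg) (Or.inl hn.ne')
  exact ⟨p, q, h⟩

/-- Vanishing of `Gc` at the `z` with `(z - c y) ^ 2 = g(y)`, `H(y) = 0`. -/
theorem Gc_eval₂ (φ : R →+* S) {H g : R[X]} (c : R) (hn : 0 < H.natDegree) (hg : g.natDegree ≤ 2 * H.natDegree)
    {y z : S} (hy : H.eval₂ φ y = 0) (hz : (z - φ c * y) ^ 2 = g.eval₂ φ y) :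
    (Gc H g c).eval₂ φ z = 0 := by
  obtain ⟨p, q, h⟩ := Gc_ideal (g := g) c hn hg
  have h1 := congrArg (eval₂ (eval₂RingHom φ z) y) h
  rw [eval₂_add, eval₂_mul, eval₂_mul, eval₂_C, coe_eval₂RingHom, eval₂_map] at h1
  have h2 : (eval₂RingHom φ z).comp C = φ := by
    ext a
    simp
  have h3 : (qd c g).eval₂ (eval₂RingHom φ z) y = 0 := by
    unfold qd
    rw [eval₂_sub, eval₂_pow, eval₂_sub, eval₂_mul, eval₂_C, eval₂_C, eval₂_X, eval₂_map, h2,
      coe_eval₂RingHom, eval₂_X, eval₂_C, hz, sub_self]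
  rw [h2, hy, h3, zero_mul, zero_mul, zero_add] at h1
  exact h1.symm

end basic

section split

variable {L : Type*} [Field L]

theorem Gc_split {H g : L[X]} (hH : H.Monic) (hs : H.Splits) (c : L) (hn : 0 < H.natDegree)
    (hg : g.natDegree ≤ 2 * H.natDegree) :
    Gc H g c = (H.roots.map fun ρ => (X - C (c * ρ)) ^ 2 - C (g.eval ρ)).prod := by
  unfold Gc
  have h1 : (H.map (C : L →+* L[X])).natDegree = H.natDegree := hH.natDegree_map _
  have h2 := resultant_eq_prod_eval (H.map (C : L →+* L[X])) (qd c g) (2 * H.natDegree)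
    (qd_natDegree_le c hn hg) (hs.map _)
  rw [h1, (hH.map _).leadingCoeff, one_pow, one_mul, hs.roots_map, Multiset.map_map] at h2
  rw [h2]
  congr 1
  refine Multiset.map_congr rfl fun ρ _ => ?_
  simp only [Function.comp_apply, qd, eval_sub, eval_pow, eval_mul, eval_C, eval_X]
  rw [eval_map, eval₂_at_apply, C_mul]

end split

end Run7.h984.TS
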