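import Pool.Agent.Run7.h984.TS.GcA

/-!
# Separability and irreducibility of `Gc`
-/

set_option autoImplicit false
set_option linter.all false

open Polynomial

namespace Run7.h984.TS

section

variable {L : Type*} [Field L] [IsAlgClosed L]

/-- a square root -/
noncomputable def sq (v : L) : L := (IsAlgClosed.exists_pow_nat_eq v (n := 2) (by norm_num)).choose

theorem sq_sq (v : L) : sq v ^ 2 = v := (IsAlgClosed.exists_pow_nat_eq v (n := 2) (by norm_num)).choose_spec

/-- the root `c ρ ± √g(ρ)` -/
noncomputable def rt (c : L) (g : L[X]) (i : L × Bool) : L :=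
  c * i.1 + (if i.2 then sq (g.eval i.1) else - sq (g.eval i.1))

theorem Gc_prod [DecidableEq L] {H g : L[X]} (hH : H.Monic) (hn : 0 < H.natDegree)
    (hg : g.natDegree ≤ 2 * H.natDegree) (hsep : H.Separable) (c : L) :
    Gc H g c = ∏ i ∈ H.roots.toFinset ×ˢ (Finset.univ : Finset Bool), (X - C (rt c g i)) := by
  rw [Gc_split hH (IsAlgClosed.splits H) c hn hg, Finset.prod_product]
  rw [Finset.prod_multiset_map_count]
  refine Finset.prod_congr rfl fun ρ hρ => ?_
  rw [Multiset.count_eq_one_of_mem (nodup_roots hsep) (Multiset.mem_toFinset.1 hρ), pow_one,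
    Fintype.prod_bool]
  have h := sq_sq (g.eval ρ)
  simp only [rt, if_true, Bool.false_eq_true, if_false]
  rw [← h]
  simp only [C_add, C_neg, C_pow, C_mul]
  rw [sq_sq]
  ring

theorem Gc_monic' {H g : L[X]} (hH : H.Monic) (hn : 0 < H.natDegree)
    (hg : g.natDegree ≤ 2 * H.natDegree) (c : L) :
    (Gc H g c).Monic ∧ (Gc H g c).natDegree = 2 * H.natDegree := by
  rw [Gc_split hH (IsAlgClosed.splits H) c hn hg]
  have h1 : ∀ ρ : L, ((X - C (c * ρ)) ^ 2 - C (g.eval ρ)).Monic ∧
      ((X - C (c * ρ)) ^ 2 - C (g.eval ρ)).natDegree = 2 := by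
    intro ρ
    have h2 : ((X - C (c * ρ)) ^ 2 : L[X]).Monic := (monic_X_sub_C _).pow 2
    have h3 : ((X - C (c * ρ)) ^ 2 : L[X]).natDegree = 2 := by
      rw [natDegree_pow, natDegree_X_sub_C]
    have h4 : (C (g.eval ρ)).degree < ((X - C (c * ρ)) ^ 2 : L[X]).degree := by
      rw [degree_eq_natDegree h2.ne_zero, h3]
      exact degree_C_le.trans_lt (by norm_num)
    refine ⟨h2.sub_of_left h4, ?_⟩
    rw [natDegree_sub_C, h3]
  constructor
  · refine monic_multiset_prod_of_monic _ _ fun ρ _ => (h1 ρ).1
  · rw [natDegree_multiset_prod_of_monic]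
    · rw [Multiset.map_map]
      have h5 : (H.roots.map (natDegree ∘ fun ρ => (X - C (c * ρ)) ^ 2 - C (g.eval ρ))) =
          H.roots.map fun _ => 2 := Multiset.map_congr rfl fun ρ _ => (h1 ρ).2
      rw [h5, Multiset.map_const', Multiset.sum_replicate, smul_eq_mul,
        ← (IsAlgClosed.splits H).natDegree_eq_card_roots, mul_comm]
    · intro f hf
      obtain ⟨ρ, -, rfl⟩ := Multiset.mem_map.1 hf
      exact (h1 ρ).1

end

theorem Gc_monic {R : Type*} [CommRing R] [IsDomain R] {H g : R[X]} (hH : H.Monic) (hn : 0 < H.natDegree)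
    (hg : g.natDegree ≤ 2 * H.natDegree) (c : R) :
    (Gc H g c).Monic ∧ (Gc H g c).natDegree = 2 * H.natDegree := by
  let φ : R →+* AlgebraicClosure (FractionRing R) :=
    (algebraMap (FractionRing R) (AlgebraicClosure (FractionRing R))).comp (algebraMap R (FractionRing R))
  have hφ : Function.Injective φ :=
    (algebraMap (FractionRing R) (AlgebraicClosure (FractionRing R))).injective.comp
      (IsFractionRing.injective R (FractionRing R))
  have h1 : (H.map φ).natDegree = H.natDegree := hH.natDegree_map φ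
  have h2 := Gc_map φ (g := g) c h1
  have h3 := Gc_monic' (hH.map φ) (by rw [h1]; exact hn) (g := g.map φ)
    (by rw [h1]; exact natDegree_map_le.trans hg) (φ c)
  rw [← h2, natDegree_map_eq_of_injective hφ, h1] at h3
  exact ⟨monic_of_injective hφ h3.1, h3.2⟩

/-- Among enough candidates `c j` one makes `Gc` separable. -/
theorem exists_sep {K : Type*} [Field K] (h2 : (2 : K) ≠ 0) {H g : K[X]} (hH : H.Monic)
    (hn : 0 < H.natDegree) (hg : g.natDegree ≤ 2 * H.natDegree) (hsep : H.Separable)
    (hcop : IsCoprime H g) (c : ℕ → K) (hc : Function.Injective c) :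
    ∃ j ≤ (2 * H.natDegree) ^ 2, (Gc H g (c j)).Separable := by
  classical
  let φ : K →+* AlgebraicClosure K := algebraMap K (AlgebraicClosure K)
  have h1 : (H.map φ).natDegree = H.natDegree := natDegree_map φ
  have hg' : (g.map φ).natDegree ≤ 2 * (H.map φ).natDegree := by
    rw [h1]; exact natDegree_map_le.trans hg
  have hn' : 0 < (H.map φ).natDegree := by rw [h1]; exact hn
  have hsep' : (H.map φ).Separable := hsep.map
  have h2' : (2 : AlgebraicClosure K) ≠ 0 := by
    intro h
    apply h2
    apply (algebraMap K (AlgebraicClosure K)).injective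
    rw [map_ofNat, map_zero, h]
  set I : Finset (AlgebraicClosure K × Bool) := (H.map φ).roots.toFinset ×ˢ Finset.univ with hI
  have hcard : I.card ≤ 2 * H.natDegree := by
    rw [hI, Finset.card_product, Finset.card_univ, Fintype.card_bool, mul_comm]
    refine Nat.mul_le_mul_left 2 ?_
    refine (Multiset.toFinset_card_le _).trans ?_
    rw [← h1]
    exact card_roots' _
  -- two indices and the candidates for which their roots agree
  have huniq : ∀ x ∈ I, ∀ y ∈ I, x ≠ y → ∀ j j' : ℕ, rt (φ (c j)) (g.map φ) x = rt (φ (c j)) (g.map φ) y →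
      rt (φ (c j')) (g.map φ) x = rt (φ (c j')) (g.map φ) y → j = j' := by
    rintro ⟨ρ, e⟩ hx ⟨ρ', e'⟩ hy hne j j' h3 h4
    by_cases hρ : ρ = ρ'
    · subst hρ
      exfalso
      have h5 : e ≠ e' := fun h => hne (by rw [h])
      have hroot : (H.map φ).eval ρ = 0 := by
        have := (Finset.mem_product.1 hx).1
        rw [Multiset.mem_toFinset, mem_roots (hH.map φ).ne_zero] at this
        exact this
      have hne0 : (g.map φ).eval ρ ≠ 0 := by
        intro h6
        obtain ⟨u, v, huv⟩ := hcop.map (mapRingHom φ)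
        have h7 := congrArg (eval ρ) huv
        simp only [coe_mapRingHom, eval_add, eval_mul, hroot, h6, mul_zero, add_zero, eval_one] at h7
        exact zero_ne_one h7
      have h6 : sq ((g.map φ).eval ρ) ≠ 0 := by
        intro h7
        have h8 := sq_sq ((g.map φ).eval ρ)
        rw [h7] at h8
        exact hne0 (by rw [← h8]; norm_num)
      have h7 : sq ((g.map φ).eval ρ) = - sq ((g.map φ).eval ρ) := by
        have h3' := h3
        cases e <;> cases e'
        · exact absurd rfl h5
        · simp only [rt, if_true, Bool.false_eq_true, if_false] at h3'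
          linear_combination (-1) * h3'
        · simp only [rt, if_true, Bool.false_eq_true, if_false] at h3'
          linear_combination h3'
        · exact absurd rfl h5
      have h8 : 2 * sq ((g.map φ).eval ρ) = 0 := by linear_combination h7
      exact (mul_ne_zero h2' h6) h8
    · have h5 : (φ (c j) - φ (c j')) * (ρ - ρ') = 0 := by
        simp only [rt] at h3 h4
        linear_combination h3 - h4
      rcases mul_eq_zero.1 h5 with h6 | h6
      · exact hc (φ.injective (sub_eq_zero.1 h6))
      · exact absurd (sub_eq_zero.1 h6) hρ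
  by_contra hcon
  push Not at hcon
  have hbad : ∀ j ∈ Finset.range ((2 * H.natDegree) ^ 2 + 1), ∃ xy ∈ I ×ˢ I, xy.1 ≠ xy.2 ∧
      rt (φ (c j)) (g.map φ) xy.1 = rt (φ (c j)) (g.map φ) xy.2 := by
    intro j hj
    have h3 := hcon j (Nat.lt_succ_iff.1 (Finset.mem_range.1 hj))
    by_contra h4
    push Not at h4
    apply h3
    have h5 : ((Gc H g (c j)).map φ).Separable := by
      rw [Gc_map φ (c j) h1, Gc_prod (hH.map φ) hn' hg' hsep', separable_prod_X_sub_C_iff']
      intro x hx y hy hxy
      by_contra hne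
      exact h4 (x, y) (Finset.mk_mem_product hx hy) hne hxy
    exact (separable_map φ).1 h5
  choose! f hf using hbad
  have hmaps : ∀ j ∈ Finset.range ((2 * H.natDegree) ^ 2 + 1), f j ∈ I ×ˢ I := fun j hj => (hf j hj).1
  have hlt : (I ×ˢ I).card < (Finset.range ((2 * H.natDegree) ^ 2 + 1)).card := by
    rw [Finset.card_product, Finset.card_range, Nat.lt_succ_iff, pow_two]
    exact Nat.mul_le_mul hcard hcard
  obtain ⟨j, hj, j', hj', hne, heq⟩ := Finset.exists_ne_map_eq_of_card_lt_of_maps_to hlt hmaps
  obtain ⟨h3, h4, h5⟩ := hf j hj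
  obtain ⟨h3', h4', h5'⟩ := hf j' hj'
  rw [← heq] at h4' h5'
  exact hne (huniq _ (Finset.mem_product.1 h3).1 _ (Finset.mem_product.1 h3).2 h4 j j' h5 h5')

end Run7.h984.TS
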