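import Pool.Agent.Run7.h984.TS.GcI

/-!
# Degrees of the coefficients of `Gc` and of its discriminant
-/

set_option autoImplicit false
set_option linter.all false

open Polynomial

namespace Run7.h984.TS

/-- A filtration. -/
structure Filt {R : Type*} [CommRing R] (P : R → ℕ → Prop) : Prop where
  zero : ∀ e, P 0 e
  one : P 1 0
  add : ∀ {x y e}, P x e → P y e → P (x + y) e
  neg : ∀ {x e}, P x e → P (-x) e
  mono : ∀ {x e e'}, e ≤ e' → P x e → P x e'
  mul : ∀ {x y e e'}, P x e → P y e' → P (x * y) (e + e')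

namespace Filt

variable {R : Type*} [CommRing R] {P : R → ℕ → Prop}

theorem sub (h : Filt P) {x y : R} {e : ℕ} (hx : P x e) (hy : P y e) : P (x - y) e := by
  rw [sub_eq_add_neg]; exact h.add hx (h.neg hy)

theorem pow (h : Filt P) {x : R} {e : ℕ} (hx : P x e) (m : ℕ) : P (x ^ m) (m * e) := by
  induction m with
  | zero => rw [pow_zero, zero_mul]; exact h.one
  | succ m ih => rw [pow_succ, add_mul, one_mul]; exact h.mul ih hx

theorem sum (h : Filt P) {ι : Type*} (s : Finset ι) (f : ι → R) {e : ℕ} (hf : ∀ i ∈ s, P (f i) e) :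
    P (∑ i ∈ s, f i) e := by
  classical
  induction s using Finset.induction_on with
  | empty => rw [Finset.sum_empty]; exact h.zero e
  | insert a s ha ih =>
    rw [Finset.sum_insert ha]
    exact h.add (hf a (Finset.mem_insert_self a s)) (ih fun i hi => hf i (Finset.mem_insert_of_mem hi))

theorem prod (h : Filt P) {ι : Type*} (s : Finset ι) (f : ι → R) {e : ℕ} (hf : ∀ i ∈ s, P (f i) e) :
    P (∏ i ∈ s, f i) (s.card * e) := by
  classical
  induction s using Finset.induction_on with
  | empty => rw [Finset.prod_empty, Finset.card_empty, zero_mul]; exact h.one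
  | insert a s ha ih =>
    rw [Finset.prod_insert ha, Finset.card_insert_of_notMem ha, add_mul, one_mul, add_comm]
    exact h.mul (hf a (Finset.mem_insert_self a s)) (ih fun i hi => hf i (Finset.mem_insert_of_mem hi))

theorem det (h : Filt P) {n : ℕ} (M : Matrix (Fin n) (Fin n) R) {e : ℕ} (hM : ∀ i j, P (M i j) e) :
    P M.det (n * e) := by
  rw [Matrix.det_apply']
  refine h.sum _ _ fun σ _ => ?_
  have h1 : P (∏ i, M (σ i) i) (n * e) := by
    have := h.prod Finset.univ (fun i => M (σ i) i) (e := e) fun i _ => hM _ _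
    rwa [Finset.card_univ, Fintype.card_fin] at this
  rcases Int.units_eq_one_or (Equiv.Perm.sign σ) with h2 | h2
  · rw [h2]; simpa using h1
  · rw [h2]; simpa using h.neg h1

/-- The resultant. -/
theorem resultant (h : Filt P) {f g : R[X]} (m n : ℕ) {e : ℕ} (hf : ∀ i, P (f.coeff i) e)
    (hg : ∀ i, P (g.coeff i) e) : P (f.resultant g m n) ((m + n) * e) := by
  unfold Polynomial.resultant
  apply h.det
  intro i j
  unfold sylvester
  rw [Matrix.of_apply]
  refine Fin.addCases (fun j₁ => ?_) (fun j₁ => ?_) j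
  · rw [Fin.addCases_left]
    split_ifs
    · exact hg _
    · exact h.zero _
  · rw [Fin.addCases_right]
    split_ifs
    · exact hf _
    · exact h.zero _

/-- Polynomials with coefficients in the filtration. -/
def PL (P : R → ℕ → Prop) (f : R[X]) (e : ℕ) : Prop := ∀ i, P (f.coeff i) e

theorem lift (h : Filt P) : Filt (PL P) where
  zero e i := by rw [coeff_zero]; exact h.zero e
  one i := by
    rw [coeff_one]
    split_ifs
    · exact h.one
    · exact h.zero _
  add hx hy i := by rw [coeff_add]; exact h.add (hx i) (hy i)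
  neg hx i := by rw [coeff_neg]; exact h.neg (hx i)
  mono he hx i := h.mono he (hx i)
  mul hx hy i := by
    rw [coeff_mul]
    exact h.sum _ _ fun p _ => h.mul (hx _) (hy _)

theorem PL_C (h : Filt P) {x : R} {e : ℕ} (hx : P x e) : PL P (C x) e := by
  intro i
  rw [coeff_C]
  split_ifs
  · exact hx
  · exact h.zero _

theorem PL_X (h : Filt P) : PL P X 0 := by
  intro i
  rw [coeff_X]
  split_ifs
  · exact h.one
  · exact h.zero _

theorem PL_map_C (h : Filt P) {f : R[X]} {e : ℕ} (hf : PL P f e) : PL (PL P) (f.map C) e := by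
  intro i
  rw [coeff_map]
  exact PL_C h (hf i)

theorem derivative (h : Filt P) {f : R[X]} {e : ℕ} (hf : PL P f e) : PL P (Polynomial.derivative f) e := by
  intro i
  rw [coeff_derivative]
  have h1 : ∀ m : ℕ, P (m : R) 0 := by
    intro m
    induction m with
    | zero => rw [Nat.cast_zero]; exact h.zero _
    | succ m ih => rw [Nat.cast_succ]; exact h.add ih h.one
  have h2 := h.mul (hf (i + 1)) (h1 (i + 1))
  rw [Nat.cast_succ] at h2
  exact h2

end Filt

theorem filt_deg {F : Type*} [Field F] : Filt (fun (x : F[X]) e => x.natDegree ≤ e) where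
  zero e := by rw [natDegree_zero]; exact Nat.zero_le e
  one := by rw [natDegree_one]
  add hx hy := natDegree_add_le_of_degree_le hx hy
  neg hx := by rw [natDegree_neg]; exact hx
  mono he hx := hx.trans he
  mul hx hy := natDegree_mul_le_of_le hx hy

/-- The coefficients of `Gc`. -/
theorem Gc_coeff_natDegree {F : Type*} [Field F] {H g : F[X][X]} {d N : ℕ} (c : F[X])
    (hH : ∀ i, (H.coeff i).natDegree ≤ d) (hg : ∀ i, (g.coeff i).natDegree ≤ N) (i : ℕ) :
    ((Gc H g c).coeff i).natDegree ≤ 3 * H.natDegree * (d + 2 * c.natDegree + N) := by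
  have h0 := filt_deg (F := F)
  have h1 := h0.lift
  have h2 := h1.lift
  have h3 : Filt.PL (Filt.PL fun (x : F[X]) e => x.natDegree ≤ e) (qd c g) (d + 2 * c.natDegree + N) := by
    unfold qd
    refine h2.sub ?_ (h2.mono (Nat.le_add_left _ _) (h0.PL_map_C hg))
    have h4 : Filt.PL (Filt.PL fun (x : F[X]) e => x.natDegree ≤ e) (C X - C (C c) * X : F[X][X][X])
        (c.natDegree) := by
      refine h2.sub (h2.mono (Nat.zero_le _) (h1.PL_C h0.PL_X)) ?_
      exact h2.mul (h1.PL_C (h0.PL_C le_rfl)) h1.PL_X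
    exact h2.mono (by omega) (h2.pow h4 2)
  have h4 : Filt.PL (Filt.PL fun (x : F[X]) e => x.natDegree ≤ e) (H.map C) (d + 2 * c.natDegree + N) :=
    h2.mono (by omega) (h0.PL_map_C hH)
  have h5 := h1.resultant H.natDegree (2 * H.natDegree) h4 h3 i
  refine le_trans h5 (Nat.mul_le_mul_right _ (by omega))

/-- The discriminant of a polynomial of degree `m`. -/
noncomputable def Dc {R : Type*} [CommRing R] (G : R[X]) (m : ℕ) : R := resultant G (derivative G) m (m - 1)

theorem Dc_natDegree {F : Type*} [Field F] {G : F[X][X]} {m e : ℕ} (hG : ∀ i, (G.coeff i).natDegree ≤ e) :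
    (Dc G m).natDegree ≤ 2 * m * e := by
  have h0 := filt_deg (F := F)
  refine le_trans (h0.resultant m (m - 1) hG (h0.derivative hG)) (Nat.mul_le_mul_right _ (by omega))

theorem Dc_ideal {R : Type*} [CommRing R] {G : R[X]} {m : ℕ} (hm : 0 < m) (hG : G.natDegree ≤ m) :
    ∃ A B : R[X], A * G + B * derivative G = C (Dc G m) := by
  obtain ⟨p, q, -, -, h⟩ := exists_mul_add_mul_eq_C_resultant G (derivative G) (m := m) (n := m - 1) hG
    ((natDegree_derivative_le G).trans (Nat.sub_le_sub_right hG 1)) (Or.inl hm.ne')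
  exact ⟨p, q, by rw [mul_comm p, mul_comm q]; exact h⟩

theorem Dc_map {R S : Type*} [CommRing R] [CommRing S] (φ : R →+* S) (G : R[X]) (m : ℕ) :
    φ (Dc G m) = Dc (G.map φ) m := by
  unfold Dc
  rw [derivative_map, resultant_map_map]

theorem Dc_ne_zero {K : Type*} [Field K] {G : K[X]} (hG : G.Monic) (hs : G.Separable) :
    Dc G G.natDegree ≠ 0 := by
  unfold Dc
  obtain ⟨l, hl⟩ : ∃ l, G.natDegree - 1 = (derivative G).natDegree + l :=
    Nat.exists_eq_add_of_le (natDegree_derivative_le G)
  rw [hl, resultant_add_right_deg _ _ _ _ _ le_rfl, hG.coeff_natDegree, one_pow, one_mul]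
  exact resultant_ne_zero _ _ hs

/-- Separability of the reduction at `t` with `D'(t) ≠ 0`. -/
theorem sep_of_Dc {R : Type*} [CommRing R] {K : Type*} [Field K] (φ : R →+* K) {G : R[X]} {m : ℕ} (hm : 0 < m)
    (hG : G.natDegree ≤ m) (h : φ (Dc G m) ≠ 0) : (G.map φ).Separable := by
  obtain ⟨A, B, hAB⟩ := Dc_ideal hm hG
  have h1 := congrArg (Polynomial.map φ) hAB
  rw [Polynomial.map_add, Polynomial.map_mul, Polynomial.map_mul, map_C, ← derivative_map] at h1
  refine ⟨C (φ (Dc G m))⁻¹ * A.map φ, C (φ (Dc G m))⁻¹ * B.map φ, ?_⟩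
  rw [mul_assoc, mul_assoc, ← mul_add, h1, ← C_mul, inv_mul_cancel₀ h, C_1]

end Run7.h984.TS
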