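import Pool.Agent.Run7.h984.TS.GcD

/-!
# The choice of `c`
-/

set_option autoImplicit false
set_option linter.all false

open Polynomial

namespace Run7.h984.TS

theorem sep_of_disc {R K : Type*} [CommRing R] [Field K] (φ : R →+* K) {H A B : R[X]} {D : R}
    (h : A * H + B * derivative H = C D) (hD : φ D ≠ 0) : (H.map φ).Separable := by
  have h1 := congrArg (Polynomial.map φ) h
  rw [Polynomial.map_add, Polynomial.map_mul, Polynomial.map_mul, map_C, ← derivative_map] at h1
  refine ⟨C (φ D)⁻¹ * A.map φ, C (φ D)⁻¹ * B.map φ, ?_⟩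
  rw [mul_assoc, mul_assoc, ← mul_add, h1, ← C_mul, inv_mul_cancel₀ hD, C_1]

theorem exists_clear {R K : Type*} [CommRing R] [IsDomain R] [Field K] [Algebra R K] [IsFractionRing R K]
    (u : K[X]) : ∃ (w : R) (v : R[X]), w ≠ 0 ∧ v.map (algebraMap R K) = C (algebraMap R K w) * u := by
  classical
  obtain ⟨w, hw⟩ := IsLocalization.exist_integer_multiples_of_finset (nonZeroDivisors R)
    (u.support.image u.coeff)
  have h1 : ∀ i, ∃ r : R, algebraMap R K r = algebraMap R K w * u.coeff i := by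
    intro i
    by_cases hi : i ∈ u.support
    · obtain ⟨r, hr⟩ := hw _ (Finset.mem_image_of_mem _ hi)
      refine ⟨r, ?_⟩
      rw [hr, Algebra.smul_def]
    · refine ⟨0, ?_⟩
      rw [notMem_support_iff.1 hi, mul_zero, map_zero]
  choose r hr using h1
  refine ⟨w, ∑ i ∈ u.support, C (r i) * X ^ i, nonZeroDivisors.coe_ne_zero w, ?_⟩
  rw [Polynomial.map_sum]
  conv_rhs => rw [u.as_sum_support_C_mul_X_pow, Finset.mul_sum]
  refine Finset.sum_congr rfl fun i _ => ?_
  rw [Polynomial.map_mul, Polynomial.map_pow, map_C, map_X, hr, C_mul, mul_assoc]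

/-- The choice of `c = X ^ j`. -/
theorem exists_good {k' : Type} [Field k'] (h2 : (2 : k') ≠ 0) {H g A B : k'[X][X]} {D : k'[X]}
    (hH : H.Monic) (hn : 0 < H.natDegree) (hg : g.natDegree ≤ 2 * H.natDegree)
    (hAB : A * H + B * derivative H = C D) (hD : D ≠ 0) (hirr : Irreducible H)
    (hns : ¬ ∃ (u : k'[X][X]) (w : k'[X]), w ≠ 0 ∧ H ∣ C (w ^ 2) * g - u ^ 2) :
    ∃ j ≤ (2 * H.natDegree) ^ 2, Irreducible (Gc H g (X ^ j)) ∧ Dc (Gc H g (X ^ j)) (2 * H.natDegree) ≠ 0 := by
  set ι : k'[X] →+* FractionRing k'[X] := algebraMap k'[X] (FractionRing k'[X]) with hι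
  have hinj : Function.Injective ι := IsFractionRing.injective k'[X] (FractionRing k'[X])
  have hHK : (H.map ι).Monic := hH.map ι
  have hdeg : (H.map ι).natDegree = H.natDegree := hH.natDegree_map ι
  have hg' : (g.map ι).natDegree ≤ 2 * (H.map ι).natDegree := by
    rw [hdeg]; exact natDegree_map_le.trans hg
  have hirrK : Irreducible (H.map ι) :=
    (hH.irreducible_iff_irreducible_map_fraction_map (K := FractionRing k'[X])).1 hirr
  have hsep : (H.map ι).Separable := sep_of_disc ι hAB (by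
    intro h
    exact hD (hinj (by rw [h, map_zero])))
  have hnsK : ∀ u : (FractionRing k'[X])[X], ¬ (H.map ι) ∣ g.map ι - u ^ 2 := by
    intro u hu
    obtain ⟨w, v, hw, hv⟩ := exists_clear (R := k'[X]) u
    apply hns
    refine ⟨v, w, hw, (map_dvd_map ι hinj hH).1 ?_⟩
    rw [Polynomial.map_sub, Polynomial.map_mul, map_C, Polynomial.map_pow, hv, map_pow]
    have h3 : C (ι w ^ 2) * g.map ι - (C (ι w) * u) ^ 2 = C (ι w ^ 2) * (g.map ι - u ^ 2) := by
      rw [C_pow]; ring
    rw [← hι, h3]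
    exact hu.mul_left _
  have hcop : IsCoprime (H.map ι) (g.map ι) := by
    rcases EuclideanDomain.dvd_or_coprime (H.map ι) (g.map ι) hirrK with h | h
    · exact absurd (by rw [zero_pow two_ne_zero, sub_zero]; exact h) (hnsK 0)
    · exact h
  have h2K : (2 : FractionRing k'[X]) ≠ 0 := by
    intro h
    apply h2
    have h3 : ((2 : k'[X])) = 0 := hinj (by rw [map_ofNat, h, map_zero])
    have h4 := congrArg (eval 0) h3
    simpa using h4
  obtain ⟨j, hj, hs⟩ := exists_sep h2K hHK (by rw [hdeg]; exact hn) hg' hsep hcop (fun j => ι (X ^ j)) (by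
    intro i j hij
    have h3 := congrArg natDegree (hinj hij)
    rwa [natDegree_X_pow, natDegree_X_pow] at h3)
  rw [hdeg] at hj
  refine ⟨j, hj, ?_, ?_⟩
  · have h3 := Gc_irred hHK hirrK hg' hnsK (ι (X ^ j)) hs
    rw [← Gc_map ι (X ^ j) hdeg] at h3
    exact ((Gc_monic hH hn hg (X ^ j)).1.irreducible_iff_irreducible_map_fraction_map
      (K := FractionRing k'[X])).2 h3
  · intro h3
    have h4 := congrArg ι h3
    rw [Dc_map, map_zero, Gc_map ι (X ^ j) hdeg] at h4
    obtain ⟨h5, h6⟩ := Gc_monic (g := g.map ι) hHK (by rw [hdeg]; exact hn) hg' (ι (X ^ j))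
    rw [hdeg] at h6
    rw [← h6] at h4
    exact Dc_ne_zero h5 hs h4

/-- Uniqueness of the root of `H` belonging to a root of a separable `Gc`. -/
theorem uniq {L : Type*} [Field L] [IsAlgClosed L] {H g : L[X]} (hH : H.Monic) (hn : 0 < H.natDegree)
    (hg : g.natDegree ≤ 2 * H.natDegree) {c : L} (hs : (Gc H g c).Separable) {ρ ρ' z : L}
    (h1 : H.eval ρ = 0) (h2 : H.eval ρ' = 0) (h3 : (z - c * ρ) ^ 2 = g.eval ρ)
    (h4 : (z - c * ρ') ^ 2 = g.eval ρ') : ρ = ρ' := by
  classical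
  by_contra hne
  have h5 := Gc_split hH (IsAlgClosed.splits H) c hn hg
  have h6 : ρ ∈ H.roots := (mem_roots hH.ne_zero).2 h1
  have h7 : ρ' ∈ H.roots.erase ρ := (Multiset.mem_erase_of_ne (Ne.symm hne)).2 ((mem_roots hH.ne_zero).2 h2)
  rw [← Multiset.cons_erase h6, ← Multiset.cons_erase h7, Multiset.map_cons, Multiset.map_cons,
    Multiset.prod_cons, Multiset.prod_cons] at h5
  have h8 : ∀ r : L, (z - c * r) ^ 2 = g.eval r → X - C z ∣ (X - C (c * r)) ^ 2 - C (g.eval r) := by
    intro r hr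
    rw [dvd_iff_isRoot, IsRoot.def, eval_sub, eval_pow, eval_sub, eval_X, eval_C, eval_C, hr, sub_self]
  have h9 : (X - C z) * (X - C z) ∣ Gc H g c := by
    rw [h5, ← mul_assoc]
    exact (mul_dvd_mul (h8 ρ h3) (h8 ρ' h4)).mul_right _
  exact not_isUnit_X_sub_C z (hs.squarefree _ h9)

end Run7.h984.TS
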