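import Pool.Agent.Run7.h984.TS.GcB

/-!
# Irreducibility of `Gc`
-/

set_option autoImplicit false
set_option linter.all false

open Polynomial

namespace Run7.h984.TS

/-- `Gc` is irreducible if it is separable and `g` is not a square modulo `H`. -/
theorem Gc_irred {K : Type*} [Field K] {H g : K[X]} (hH : H.Monic) (hirr : Irreducible H)
    (hg : g.natDegree ≤ 2 * H.natDegree) (hns : ∀ u : K[X], ¬ H ∣ g - u ^ 2) (c : K)
    (hs : (Gc H g c).Separable) : Irreducible (Gc H g c) := by
  classical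
  have hn : 0 < H.natDegree := hirr.natDegree_pos
  obtain ⟨hGm, hGd⟩ := Gc_monic (g := g) hH hn hg c
  haveI : Fact (Irreducible H) := ⟨hirr⟩
  let E := AdjoinRoot H
  let ρ : E := AdjoinRoot.root H
  let v : E := AdjoinRoot.mk H g
  have hv : ¬ IsSquare v := by
    rintro ⟨e, he⟩
    obtain ⟨u, rfl⟩ := AdjoinRoot.mk_surjective e
    apply hns u
    have h1 : AdjoinRoot.mk H (g - u ^ 2) = 0 := by
      rw [map_sub, map_pow, pow_two]
      exact sub_eq_zero.2 he
    exact AdjoinRoot.mk_eq_zero.1 h1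
  let Q : E[X] := X ^ 2 - C v
  have hQ : Irreducible Q := by
    apply X_pow_sub_C_irreducible_of_prime Nat.prime_two
    intro b hb
    exact hv ⟨b, by rw [← hb, pow_two]⟩
  haveI : Fact (Irreducible Q) := ⟨hQ⟩
  let E' := AdjoinRoot Q
  let s : E' := AdjoinRoot.root Q
  let ψ : K →+* E' := (AdjoinRoot.of Q).comp (AdjoinRoot.of H)
  letI : Algebra K E' := ψ.toAlgebra
  have hs2 : s ^ 2 = AdjoinRoot.of Q v := by
    have h1 := AdjoinRoot.eval₂_root Q
    rw [eval₂_sub, eval₂_pow, eval₂_X, eval₂_C] at h1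
    exact sub_eq_zero.1 h1
  let y : E' := AdjoinRoot.of Q ρ
  let γ : E' := ψ c * y + s
  have hy : H.eval₂ ψ y = 0 := by
    rw [← hom_eval₂, AdjoinRoot.eval₂_root, map_zero]
  have hgy : g.eval₂ ψ y = AdjoinRoot.of Q v := by
    rw [← hom_eval₂]
    congr 1
    have : v = AdjoinRoot.mk H g := rfl
    rw [this, ← AdjoinRoot.aeval_eq, aeval_def]
    rfl
  have hγ : (Gc H g c).eval₂ ψ γ = 0 := by
    apply Gc_eval₂ ψ c hn hg hy
    rw [hgy, ← hs2]
    congr 1
    ring
  have hint : IsIntegral K γ := ⟨Gc H g c, hGm, hγ⟩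
  have hdvd : minpoly K γ ∣ Gc H g c := minpoly.dvd K γ hγ
  -- every root of `Gc` is a root of the minimal polynomial
  let φ : K →+* AlgebraicClosure K := algebraMap K (AlgebraicClosure K)
  have hroots : ∀ z : AlgebraicClosure K, ((Gc H g c).map φ).eval z = 0 → ((minpoly K γ).map φ).eval z = 0 := by
    intro z hz
    have h1 : (H.map φ).natDegree = H.natDegree := natDegree_map φ
    rw [Gc_map φ c h1, Gc_split (hH.map φ) (IsAlgClosed.splits _) (φ c) (by rw [h1]; exact hn)
      (by rw [h1]; exact natDegree_map_le.trans hg), eval_multiset_prod, Multiset.prod_eq_zero_iff,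
      Multiset.map_map, Multiset.mem_map] at hz
    obtain ⟨r, hr, hr2⟩ := hz
    simp only [Function.comp_apply, eval_sub, eval_pow, eval_X, eval_C] at hr2
    rw [mem_roots (hH.map φ).ne_zero, IsRoot.def, eval_map] at hr
    let τ₁ : E →+* AlgebraicClosure K := AdjoinRoot.lift φ r hr
    have hτ1 : ∀ f : K[X], τ₁ (AdjoinRoot.mk H f) = f.eval₂ φ r := fun f => AdjoinRoot.lift_mk hr f
    have hQ0 : Q.eval₂ τ₁ (z - φ c * r) = 0 := by
      rw [eval₂_sub, eval₂_pow, eval₂_X, eval₂_C]
      have h3 : τ₁ v = g.eval₂ φ r := hτ1 g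
      rw [h3, ← eval_map, hr2]
    let τ : E' →+* AlgebraicClosure K := AdjoinRoot.lift τ₁ (z - φ c * r) hQ0
    have hτo : ∀ e : E, τ (AdjoinRoot.of Q e) = τ₁ e := fun e => AdjoinRoot.lift_of hQ0
    have hτψ : τ.comp ψ = φ := by
      ext a
      change τ (AdjoinRoot.of Q (AdjoinRoot.of H a)) = φ a
      rw [hτo]
      exact AdjoinRoot.lift_of hr
    have hτγ : τ γ = z := by
      change τ (ψ c * y + s) = z
      rw [map_add, map_mul]
      have h3 : τ (ψ c) = φ c := by rw [← hτψ]; rfl
      have h4 : τ y = r := by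
        change τ (AdjoinRoot.of Q ρ) = r
        rw [hτo]
        exact AdjoinRoot.lift_root hr
      have h5 : τ s = z - φ c * r := AdjoinRoot.lift_root hQ0
      rw [h3, h4, h5]
      ring
    have h6 : (minpoly K γ).eval₂ ψ γ = 0 := minpoly.aeval K γ
    have h7 := congrArg τ h6
    rw [hom_eval₂, hτψ, hτγ, map_zero] at h7
    rw [eval_map]
    exact h7
  have hsep' : ((Gc H g c).map φ).Separable := hs.map
  have hcard : ((Gc H g c).map φ).roots.toFinset ⊆ ((minpoly K γ).map φ).roots.toFinset := by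
    intro z hz
    rw [Multiset.mem_toFinset, mem_roots (hGm.map φ).ne_zero] at hz
    rw [Multiset.mem_toFinset, mem_roots ((minpoly.monic hint).map φ).ne_zero]
    exact hroots z hz
  have h1 : ((Gc H g c).map φ).roots.toFinset.card = (Gc H g c).natDegree := by
    rw [Multiset.toFinset_card_of_nodup (nodup_roots hsep'), ← (IsAlgClosed.splits _).natDegree_eq_card_roots,
      natDegree_map]
  have h2 : (Gc H g c).natDegree ≤ (minpoly K γ).natDegree := by
    rw [← h1]
    refine (Finset.card_le_card hcard).trans ((Multiset.toFinset_card_le _).trans ?_)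
    refine (card_roots' _).trans ?_
    rw [natDegree_map]
  have h3 : Gc H g c = minpoly K γ :=
    eq_of_monic_of_dvd_of_natDegree_le (minpoly.monic hint) hGm hdvd h2
  rw [h3]
  exact minpoly.irreducible hint

end Run7.h984.TS
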